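import Pool.Agent.Lib.MP_0b6b0e_gt.ZB.H94.Basic

/-! Module FL: the flat scales give the second order inequality. -/

set_option autoImplicit false

open Set Filter Topology MeasureTheory

open scoped InnerProductSpace

namespace Pool.Agent.Lib.MP_0b6b0e_gt.ZB.H19

/-- the second order term -/
noncomputable def so {n : ℕ} (i : ℕ) (F : EuclideanSpace ℝ (Fin n) → ℝ)
    (x v : EuclideanSpace ℝ (Fin n)) : ℝ :=
  pw i F x * (dl F x v) ^ 2

lemma so_smul {n : ℕ} (i : ℕ) (F : EuclideanSpace ℝ (Fin n) → ℝ)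
    (x v : EuclideanSpace ℝ (Fin n)) (c : ℝ) : so i F x (c • v) = c ^ 2 * so i F x v := by
  unfold so dl
  rw [map_smul, smul_eq_mul]
  ring

lemma so_continuousAt (hDV : DVStatement) {n : ℕ} (i : ℕ) {F : EuclideanSpace ℝ (Fin n) → ℝ}
    (hF : IsG F) (hFs : Smooth F) {x : EuclideanSpace ℝ (Fin n)} (hx : x ≠ 0)
    (v : EuclideanSpace ℝ (Fin n)) : ContinuousAt (fun y => so i F y v) x := by
  have h1 : ContinuousAt F x := hF.continuous.continuousAt
  have h2 : ContinuousAt (fun y => (F y)⁻¹) x := h1.inv₀ (hF.pos hx).ne'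
  have h3 : ContinuousAt (fderiv ℝ F) x := (hDV.2.1 n F hF hFs x hx).2.2
  have h4 : ContinuousAt (fun y => fderiv ℝ F y v) x := h3.clm_apply continuousAt_const
  exact (h2.pow i).mul ((h2.mul h4).pow 2)

lemma step (hDV : DVStatement) (hEX : EXStatement) (hRK : RKStatement) {n i : ℕ}
    {P p : EuclideanSpace ℝ (Fin n) → ℝ} (hi : 1 ≤ i) (hP : IsG P) (hp : IsG p)
    (hPs : Smooth P) (hch : Chord i P p) {x v : EuclideanSpace ℝ (Fin n)} (hx : x ≠ 0)
    (hv : ‖v‖ = 1) (hR : ∀ k : ℝ, 0 < k → Ridge P x 0 k) :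
    so i P x v + so i (rf P) x v ≤ so i p x v + so i (rf p) x v := by
  obtain ⟨hps, hfo⟩ := hDV.2.2 n i P p hi hP hp hPs hch
  obtain ⟨r, b, C, hr, -, hr0, -, -, hP1, hQ1, -⟩ :=
    hRK n P hP hPs x v 0 hx hv (Or.inl rfl) hR
  have hy : Tendsto (fun m => x + (r m / 2) • v) atTop (𝓝 x) := by
    have : Tendsto (fun m => x + (r m / 2) • v) atTop (𝓝 (x + ((0 : ℝ) / 2) • v)) :=
      tendsto_const_nhds.add ((hr0.div_const 2).smul_const v)
    simpa using this
  have hz : Tendsto (fun m => x - (r m / 2) • v) atTop (𝓝 x) := by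
    have : Tendsto (fun m => x - (r m / 2) • v) atTop (𝓝 (x - ((0 : ℝ) / 2) • v)) :=
      tendsto_const_nhds.sub ((hr0.div_const 2).smul_const v)
    simpa using this
  obtain ⟨-, eP⟩ := hEX n i P hP hPs x v hx r hr hr0
  obtain ⟨-, eQ⟩ := hEX n i (rf P) hP.rf hPs.rf x v hx r hr hr0
  obtain ⟨np, ep⟩ := hEX n i p hp hps x v hx r hr hr0
  obtain ⟨nq, eq⟩ := hEX n i (rf p) hp.rf hps.rf x v hx r hr hr0
  have hP2 := (hP1.const_mul (pw i P x * (P x)⁻¹))
  have hQ2 := (hQ1.const_mul (pw i (rf P) x * (rf P x)⁻¹))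
  have lim := (((eP.add eQ).add (hP2.add hQ2)).sub (ep.add eq))
  have hpos : ∀ᶠ m in atTop, 0 ≤ pw i p x * (p x)⁻¹ *
      (fderiv ℝ p (x + (r m / 2) • v) v - fderiv ℝ p (x - (r m / 2) • v) v) / r m +
      pw i (rf p) x * (rf p x)⁻¹ *
      (fderiv ℝ (rf p) (x + (r m / 2) • v) v - fderiv ℝ (rf p) (x - (r m / 2) • v) v) /
        r m := by
    filter_upwards [np, nq] with m h1 h2
    have c1 : 0 ≤ pw i p x * (p x)⁻¹ :=
      mul_nonneg (pw_pos hp i hx).le (inv_nonneg.2 (hp.nonneg x))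
    have c2 : 0 ≤ pw i (rf p) x * (rf p x)⁻¹ :=
      mul_nonneg (pw_pos hp.rf i hx).le (inv_nonneg.2 (hp.rf.nonneg x))
    exact add_nonneg (div_nonneg (mul_nonneg c1 h1) (hr m).le)
      (div_nonneg (mul_nonneg c2 h2) (hr m).le)
  have hne1 : ∀ᶠ m in atTop, x + (r m / 2) • v ≠ 0 := hy.eventually_ne hx
  have hne2 : ∀ᶠ m in atTop, x - (r m / 2) • v ≠ 0 := hz.eventually_ne hx
  have key := ge_of_tendsto lim (b := 0) (by
    filter_upwards [hpos, hne1, hne2] with m h0 h1 h2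
    have f1 := hfo _ h1 v
    have f2 := hfo _ h2 v
    refine h0.trans (le_of_eq ?_)
    have hrm := (hr m).ne'
    simp only [inner_zero_left, abs_zero, mul_zero, sub_zero]
    field_simp
    linear_combination f1 - f2)
  have hi0 : (0 : ℝ) < i + 1 := by positivity
  unfold so
  have k2 : (0 : ℝ) ≤ (i + 1) * ((pw i p x * (dl p x v) ^ 2 +
      pw i (rf p) x * (dl (rf p) x v) ^ 2) - (pw i P x * (dl P x v) ^ 2 +
      pw i (rf P) x * (dl (rf P) x v) ^ 2)) := by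
    refine key.trans (le_of_eq ?_)
    ring
  have := nonneg_of_mul_nonneg_right k2 hi0
  linarith

theorem fl : DVStatement → EXStatement → RKStatement → FLStatement := by
  intro hDV hEX hRK n i P p hi hP hp hPs hR hch x hx v
  obtain ⟨X, hX, hR⟩ := hR
  obtain ⟨hps, -⟩ := hDV.2.2 n i P p hi hP hp hPs hch
  change so i P x v + so i (rf P) x v ≤ so i p x v + so i (rf p) x v
  by_contra hne
  rw [not_le] at hne
  have c1 : ContinuousAt (fun y => so i P y v + so i (rf P) y v) x :=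
    (so_continuousAt hDV i hP hPs hx v).add (so_continuousAt hDV i hP.rf hPs.rf hx v)
  have c2 : ContinuousAt (fun y => so i p y v + so i (rf p) y v) x :=
    (so_continuousAt hDV i hp hps hx v).add (so_continuousAt hDV i hp.rf hps.rf hx v)
  have e1 : ∀ᶠ y in 𝓝 x, so i p y v + so i (rf p) y v < so i P y v + so i (rf P) y v :=
    c2.eventually_lt c1 hne
  have e2 : ∀ᶠ y in 𝓝 x, y ≠ 0 := isOpen_ne.mem_nhds hx
  obtain ⟨y, hyX, hy1, hy2⟩ := hX.inter_nhds_nonempty (e1.and e2)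
  refine absurd hy1 (not_lt.2 ?_)
  rcases eq_or_ne v 0 with rfl | hv
  · simp [so, dl]
  · have hnv : ‖v‖ ≠ 0 := norm_ne_zero_iff.2 hv
    have hu : ‖(‖v‖⁻¹ • v)‖ = 1 := by
      rw [norm_smul, norm_inv, norm_norm, inv_mul_cancel₀ hnv]
    have h1 := step hDV hEX hRK hi hP hp hPs hch hy2 hu (hR y hyX hy2).1
    have hvv : ‖v‖ • (‖v‖⁻¹ • v) = v := by
      rw [smul_smul, mul_inv_cancel₀ hnv, one_smul]
    have hs : ∀ F : EuclideanSpace ℝ (Fin n) → ℝ,
        so i F y v = ‖v‖ ^ 2 * so i F y (‖v‖⁻¹ • v) := by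
      intro F
      rw [← so_smul, hvv]
    rw [hs P, hs (rf P), hs p, hs (rf p), ← mul_add, ← mul_add]
    exact mul_le_mul_of_nonneg_left h1 (sq_nonneg _)

end Pool.Agent.Lib.MP_0b6b0e_gt.ZB.H19
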